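import Pool.Agent.Lib.helper9.EbB

namespace Pool.Agent.Results.MP_817c3f_lc.EXPTIME

open Pool.Agent.Cx Pool.Agent.Tok Polynomial

/-- A position `(E_L, E_R, p, b)`: vertices are the indices of `p`, `p[v]` says whether `v` holds
a token, and `b` says whether Left is to move. -/
abbrev Inst := List (ℕ × ℕ) × List (ℕ × ℕ) × List Bool × Bool

/-- edges join vertices -/
def Valid (I : Inst) : Prop := ∀ e ∈ I.1 ++ I.2.1, e.1 < I.2.2.1.length ∧ e.2 < I.2.2.1.length

/-- the player to move takes a token along one of his edges to an empty vertex -/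
def Move (L R : List (ℕ × ℕ)) (p q : List Bool × Bool) : Prop :=
  ∃ e ∈ (if p.2 then L else R), p.1.getD e.1 false = true ∧ p.1.getD e.2 true = false ∧
    q = ((p.1.set e.1 false).set e.2 true, !p.2)

/-- valid positions with outcome `o` -/
def EdgeBlocking (o : Option Bool) (I : Inst) : Prop := Valid I ∧ Outcome (Move I.1 I.2.1) I.2.2 o

lemma mem (o) : InEXPTIME (Lang (EdgeBlocking o)) := by
  have hV : PP Valid := .ball (by fun_prop) (by fun_prop)
  refine inEXP_Lang ((hV.comp PT.id.fst).and (PP.outcome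
    (S := fun z : Inst × ℕ => wordsB [true, false] z.1.2.2.1.length z.2 ×ˢ [true, false])
    (M := fun z => Move z.1.1 z.1.2.1) (s := fun z => z.1.2.2) (by fun_prop) (by fun_prop)
    (by unfold Move; fun_prop) o)) (X * X) fun ⟨L, R, p, b⟩ =>
      and_congr_right fun h => outcome_congr (fun c => ?_) o
  dsimp only
  rw [wordsB_eq _ _ _ (by
    have := length_lt_size p
    have := size_pos L
    simp only [eval_mul, eval_X, pow_mul, size_pair]
    exact (Nat.pow_le_pow_left (le_trans (by simp; omega) Nat.lt_two_pow_self.le) _).trans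
      (Nat.pow_le_pow_right (by positivity) (by omega)))]
  have e : ∀ q : List Bool × Bool, q ∈ words [true, false] p.length ×ˢ [true, false] ↔
      q.1.length = p.length := fun ⟨q, b⟩ => by simp [mem_words]
  simp only [e]
  have cl : ∀ q r, Move L R q r → r.1.length = q.1.length := by
    rintro q _ ⟨e, -, -, -, rfl⟩; simp
  exact out_bisim (fun q r => q = r ∧ q.1.length = p.length)
    (fun _ _ ⟨e, a⟩ r b => ⟨r, e ▸ ⟨(cl _ _ b).trans a, b⟩, rfl, (cl _ _ b).trans a⟩)
    (fun _ _ ⟨e, a⟩ r b => ⟨r, e ▸ b.2, rfl, b.1⟩) ⟨rfl, rfl⟩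

open Classical in
noncomputable def edg (vs : List T5) (E : T5 → T5 → Prop) : List (ℕ × ℕ) :=
  (List.range vs.length ×ˢ List.range vs.length).filter fun e =>
    decide (E (vs.getD e.1 default) (vs.getD e.2 default))

lemma mem_edg {vs E i j} : (i, j) ∈ edg vs E ↔
    ∃ (hi : i < vs.length) (hj : j < vs.length), E vs[i] vs[j] := by
  simp only [edg, List.mem_filter, List.mem_product, List.mem_range, decide_eq_true_eq]
  exact ⟨fun ⟨⟨a, b⟩, c⟩ => ⟨a, b, by simpa [a, b] using c⟩, fun ⟨a, b, c⟩ => ⟨⟨a, b⟩, by simpa [a, b]⟩⟩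

open Classical in
lemma bridge {I : Par} {vs : List T5} (nd : vs.Nodup) (hV : ∀ x, x ∈ vs ↔ Eb.V I x) (s b c) :
    Out (Move (edg vs (Eb.EA I)) (edg vs (Eb.ED I))) c (vs.map fun x => decide (x ∈ s), b) ↔
      Out (Eb.G I) c (s, b) := by
  have st : ∀ (s : Set T5) i j (hi : i < vs.length) (hj : j < vs.length),
      ((vs.map fun x => decide (x ∈ s)).set i false).set j true =
        vs.map fun x => decide (x ∈ insert vs[j] (s \ {vs[i]})) := fun s i j hi hj =>
    List.ext_getElem (by simp) fun k _ hk => by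
      simp only [List.getElem_set, List.getElem_map, Set.mem_insert_iff, Set.mem_sdiff,
        Set.mem_singleton_iff, nd.getElem_inj_iff]
      grind
  refine out_bisim (fun p q => p = (vs.map fun x => decide (x ∈ q.1), q.2)) ?_ ?_ rfl
  · rintro _ ⟨s, b⟩ rfl _ ⟨⟨i, j⟩, he, a1, a2, rfl⟩
    obtain ⟨hi, hj, e⟩ : ∃ (hi : i < vs.length) (hj : j < vs.length),
        if b then Eb.EA I vs[i] vs[j] else Eb.ED I vs[i] vs[j] := by
      cases b <;> exact mem_edg.1 he
    exact ⟨_, ⟨_, _, (hV _).1 (List.getElem_mem hi), (hV _).1 (List.getElem_mem hj), e,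
      by simpa [hi] using a1, by simpa [hj] using a2, rfl⟩, Prod.ext (by simpa using st s i j hi hj) rfl⟩
  · rintro _ ⟨s, b⟩ rfl _ ⟨u, v, a1, a2, e, a3, a4, rfl⟩
    obtain ⟨i, hi, rfl⟩ := List.getElem_of_mem ((hV u).2 a1)
    obtain ⟨j, hj, rfl⟩ := List.getElem_of_mem ((hV v).2 a2)
    exact ⟨_, ⟨(i, j), by cases b <;> exact mem_edg.2 ⟨hi, hj, e⟩, by simpa [hi] using a3,
      by simpa [hj] using a4, rfl⟩, Prod.ext (by simpa using st s i j hi hj) rfl⟩

def vs (N : ℕ) : List T5 :=
  List.range 9 ×ˢ List.range (N + 1) ×ˢ List.range (N + 1) ×ˢ List.range (N + 1) ×ˢ List.range 2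

lemma hard (o) : HardEX (EdgeBlocking o) := by
  classical
  have h : HardEX fun I => SG I ↔ o = none := by
    cases o
    · simpa using hardEX_sg
    · simpa using hardEX_sg.not
  have hv : PT fun I : ℕ × List Op => vs (2 * size I) := by unfold vs; fun_prop
  have ed : ∀ E : ℕ × List Op → T5 → T5 → Prop, (PP fun z : (ℕ × List Op) × T5 × T5 =>
      E z.1 z.2.1 z.2.2) → PT fun I => edg (vs (2 * size I)) (E I) := fun E h =>
    PT.filter (PP.decide (h.comp (f := fun z : (ℕ × List Op) × ℕ × ℕ => (z.1,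
      (vs (2 * size z.1)).getD z.2.1 default, (vs (2 * size z.1)).getD z.2.2 default))
      (by unfold vs; fun_prop))) (by fun_prop)
  refine h.red (r := fun I => (edg (vs (2 * size I)) (Eb.EA (par true I)),
    edg (vs (2 * size I)) (Eb.ED (par true I)), (vs (2 * size I)).map fun x => decide (x ∈
      Eb.H (2 * size I) (if o = some true then 0 else 3, I.2.length, 0, 0, 0)
        (Eb.St fun _ => 2 * size I)), decide (o = some true)))
    (.pair (ed _ (.or (.and (by fun_prop) (.or (by fun_prop) (.or (.and (by fun_prop) (.and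
      (by fun_prop) (.not (.bex_lt (.and (by fun_prop) (pp_pts ?_ ?_ ?_ ?_ ?_))
      (by simp only [par]; fun_prop))))) (by fun_prop)))) (by fun_prop))) (.pair (ed _ (.or
      (by fun_prop) (.or (.and (by fun_prop) (.and (by fun_prop) (pp_A ?_ ?_ ?_ ?_ ?_)))
      (by fun_prop)))) (.pair (.map (PP.decide ?_) hv) (by fun_prop)))) fun I => ?_
  iterate 10 fun_prop
  · simp only [Eb.H, Eb.St, Set.mem_ofPred_eq]; fun_prop
  have := length_lt_size I.2
  have := size_pair I.1 I.2
  simp only [Prod.mk.eta, size_nat] at *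
  rw [EdgeBlocking, Valid, and_iff_right (by
      simp only [List.mem_append, mem_edg, Prod.forall, List.length_map]; grind),
    sg_iff true, ← Eb.main (by simp [par]; omega) (by simp [par]; omega) (by simp [par])
      (by simp [par]; omega) (by simp only [par]; grind) (by simp only [par, Ts]; grind)
      (by simp only [par, Ts]; grind) (by simp [par, Ts]) (by simp [par])]
  exact outcome_congr (fun b => (bridge (List.nodup_range.product (List.nodup_range.product
    (List.nodup_range.product (List.nodup_range.product List.nodup_range))))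
    (fun ⟨a, b, c, d, e⟩ => by simp [Eb.V, par, Nat.lt_succ_iff]) _ _ b).symm) o

theorem result (o : Option Bool) : EXPTIMEComplete (Lang (EdgeBlocking o)) ∧
    (InPSPACE (Lang (EdgeBlocking o)) ↔ ∀ L, InEXPTIME L → InPSPACE L) :=
  ⟨⟨mem o, (hard o).hard⟩, (hard o).ps_eq, fun h => h _ (mem o)⟩

end Pool.Agent.Results.MP_817c3f_lc.EXPTIME
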